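import Pool.Agent.Y490.GBC.Main

/-!
# Rigidity for vanishing Gauss–Bonnet–Chern mass fails (MP_f5d73e_gt, Q1: disproved)

On `ℝ⁶` with its complex structure `J` take the metric
`g = δ + 36 x ⊗ x / (1 + |x|²)³ + 12 Jx ⊗ Jx / (1 + |x|²)²`.

* For a metric `δ + f(s) x ⊗ x + h(s) Jx ⊗ Jx`, `s = |x|²`, the Christoffel symbols and the Riemann
  tensor are computed in closed form.  In an orthonormal frame adapted to `x`, `Jx` the Riemann tensor
  is a combination of six constant tensors, and `L₂`, `R` are explicit functions of `s`.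
* For the metric above `L₂ = N(s) / ((1+s)³ + 36 s)³ ((1+s)² + 12 s)² (1+s)⁴` with a polynomial `N` of
  degree 13, positive for `s ≥ 0`; similarly for `R`.
* The metric is asymptotically flat of order `2`, `P = O(r⁻⁴)`, `∂g = O(r⁻³)`, so that the flux through
  `S_r` is `O(r⁻²)` and the mass is zero.
* A metric isometric to the Euclidean metric is flat, so has `L₂ = 0`.
-/

open Filter MeasureTheory

open Pool.Agent.Y490.GBC in
/-- The metric `gJ = δ + 36 x ⊗ x / (1 + |x|²)³ + 12 Jx ⊗ Jx / (1 + |x|²)²` on `ℝ⁶` is a complete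
Riemannian metric, asymptotically flat of order `2 > (6 - 4) / 3`, with `L₂` integrable, `L₂ > 0` and
`R > 0` everywhere, with zero Gauss–Bonnet–Chern mass, and it is not isometric to Euclidean space.
So the rigidity assertion of Q1 fails, and it fails under the extra assumption `R ≥ 0`. -/
theorem Pool.Agent.Results.MP_f5d73e_gt.PositiveScalarRigidityFails.result :
    (IsRiemannian gJ ∧ IsCompleteMetric gJ ∧ AsympFlat gJ 2 ∧
      Integrable (fun x => L2 gJ x * √(gJ x).det) ∧ (∀ x, 0 < L2 gJ x) ∧ (∀ x, 0 < Scal gJ x) ∧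
      HasGBCMass gJ 0 ∧ ¬IsometricToEuclidean gJ) ∧
    ¬Rigidity 6 ∧ ¬RigidityScal 6 :=
  ⟨main, not_rigidity, not_rigidityScal⟩
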